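import Pool.Agent.H66.NF.U

/-!
# NF, row CRD
-/

set_option autoImplicit false

namespace Pool.NF

open Polynomial

/-- The number of elements of `A[x]/(G)`. -/
theorem card_adj {A : Type} [CommRing A] (G : A[X]) (hG : G.Monic) :
    Nat.card (A[X] ⧸ Ideal.span {G}) = Nat.card A ^ G.natDegree := by
  have e : AdjoinRoot G ≃ (Fin G.natDegree → A) :=
    (AdjoinRoot.powerBasis' hG).basis.equivFun.toEquiv
  have h1 : Nat.card (AdjoinRoot G) = Nat.card (Fin G.natDegree → A) := Nat.card_congr e
  rw [Nat.card_fun, Nat.card_fin] at h1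
  exact h1

/-- **CRD.** -/
theorem crd : CRDStmt := by
  intro O _ F a hF _
  have e := AdjoinRoot.quotAdjoinRootEquivQuotPolynomialQuot (Ideal.span {a}) F
  have h1 : (Ideal.span {a}).map (AdjoinRoot.of F) = Ideal.span {AdjoinRoot.of F a} := by
    rw [Ideal.map_span, Set.image_singleton]
  rw [h1] at e
  rw [Nat.card_congr e.toEquiv]
  have hm : (F.map (Ideal.Quotient.mk (Ideal.span {a}))).Monic := hF.map _
  rw [card_adj _ hm]
  rcases subsingleton_or_nontrivial (O ⧸ Ideal.span {a}) with hs | hn
  · rw [Nat.card_unique, one_pow, one_pow]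
  · rw [hF.natDegree_map]

end Pool.NF
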